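import Mathlib

/-!
# The chord construction on `y^2 = A u^3 + 1`, and fields of algebraic elements
-/

set_option autoImplicit false

namespace Pool.Agent.TH755.C8_SEQ

section curve

variable {F : Type} [Field F]

/-- The slope of the chord. -/
def sl (p q : F × F) : F := (p.2 - q.2) / (p.1 - q.1)

/-- The chord construction on the curve `y^2 = A u^3 + 1`. -/
def addf (A : F) (p q : F × F) : F × F :=
  (sl p q ^ 2 / A - p.1 - q.1, -(sl p q * (sl p q ^ 2 / A - p.1 - q.1 - p.1) + p.2))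

def ngp (p : F × F) : F × F := (p.1, -p.2)

theorem ngp_ngp (p : F × F) : ngp (ngp p) = p := by simp [ngp]

def On (A : F) (p : F × F) : Prop := p.2 ^ 2 = A * p.1 ^ 3 + 1

theorem On.neg {A : F} {p : F × F} (h : On A p) : On A (ngp p) := by
  unfold On ngp at *
  simpa using h

theorem rel {A : F} (hA : A ≠ 0) {p q : F × F} (hp : On A p) (hq : On A q) (h : p.1 ≠ q.1) :
    ∃ l m u : F, l = sl p q ∧ u = l ^ 2 / A - p.1 - q.1 ∧ addf A p q = (u, -(l * u + m)) ∧
      p.2 = l * p.1 + m ∧ q.2 = l * q.1 + m ∧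
      A * (p.1 + q.1 + u) = l ^ 2 ∧ A * (p.1 * q.1 + p.1 * u + q.1 * u) = -2 * l * m ∧
      A * (p.1 * q.1 * u) = m ^ 2 - 1 := by
  have hd : p.1 - q.1 ≠ 0 := sub_ne_zero.2 h
  obtain ⟨l, hl⟩ : ∃ l, l = sl p q := ⟨_, rfl⟩
  obtain ⟨m, hm⟩ : ∃ m, m = p.2 - l * p.1 := ⟨_, rfl⟩
  obtain ⟨u, hu⟩ : ∃ u, u = l ^ 2 / A - p.1 - q.1 := ⟨_, rfl⟩
  have hl' : l * (p.1 - q.1) = p.2 - q.2 := by rw [hl, sl]; field_simp
  have hp' : p.2 = l * p.1 + m := by rw [hm]; ring
  have hq' : q.2 = l * q.1 + m := by rw [hm]; linear_combination hl'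
  have e1 : A * (p.1 + q.1 + u) = l ^ 2 := by rw [hu]; field_simp; ring
  unfold On at hp hq
  rw [hp'] at hp
  rw [hq'] at hq
  have e2 : A * (p.1 * q.1 + p.1 * u + q.1 * u) = -2 * l * m := by
    apply mul_left_cancel₀ hd
    linear_combination (p.1 - q.1) * (p.1 + q.1) * e1 + hp - hq
  have e3 : A * (p.1 * q.1 * u) = m ^ 2 - 1 := by
    have : p.1 * (A * (p.1 * q.1 + p.1 * u + q.1 * u)) = p.1 * (-2 * l * m) := by rw [e2]
    linear_combination this - p.1 ^ 2 * e1 - hp
  refine ⟨l, m, u, hl, hu, ?_, hp', hq', e1, e2, e3⟩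
  unfold addf
  rw [← hl, ← hu, hp']
  congr 1
  ring

theorem On.add {A : F} (hA : A ≠ 0) {p q : F × F} (hp : On A p) (hq : On A q) (h : p.1 ≠ q.1) :
    On A (addf A p q) := by
  obtain ⟨l, m, u, _, _, h1, _, _, e1, e2, e3⟩ := rel hA hp hq h
  rw [h1]
  unfold On
  linear_combination -u ^ 2 * e1 + u * e2 - e3

theorem inv {A : F} {p q : F × F} (h : p.1 ≠ q.1) (h' : (addf A p q).1 ≠ q.1) :
    addf A (addf A p q) (ngp q) = p := by
  have hd : p.1 - q.1 ≠ 0 := sub_ne_zero.2 h
  have hd' : (addf A p q).1 - q.1 ≠ 0 := sub_ne_zero.2 h'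
  have hl' : sl p q * (p.1 - q.1) = p.2 - q.2 := by rw [sl]; field_simp
  have hs : sl (addf A p q) (ngp q) = - sl p q := by
    rw [sl, div_eq_iff (by simpa [ngp] using hd')]
    simp only [ngp, addf]
    linear_combination hl'
  rw [addf, hs]
  ext
  · simp only [ngp, addf]
    ring
  · simp only [ngp, addf]
    ring

/-- The tangent at `p` if `p + q` and `p` have the same first coordinate. -/
theorem tangent {A : F} (hA : A ≠ 0) {p q : F × F} (hp : On A p) (hq : On A q) (h : p.1 ≠ q.1)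
    (h' : (addf A p q).1 = p.1) : 3 * A * p.1 ^ 2 = 2 * sl p q * p.2 ∧
      A * (2 * p.1 + q.1) = sl p q ^ 2 ∧ q.2 = p.2 - sl p q * (p.1 - q.1) := by
  obtain ⟨l, m, u, hl, hu, h1, h2, h3, e1, e2, e3⟩ := rel hA hp hq h
  rw [h1] at h'
  simp only at h'
  rw [h'] at e1 e2 e3
  rw [← hl]
  refine ⟨?_, ?_, ?_⟩
  · rw [h2]
    linear_combination 2 * p.1 * e1 - e2
  · linear_combination e1
  · rw [h2, h3]
    ring

end curve

section closure

variable {K : Type} [Field K] [Algebra ℂ K]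

/-- The elements of `L` which are algebraic over `S`. -/
def Cl (S : Subalgebra ℂ K) (L : Type) [Field L] [Algebra K L] : Subfield L :=
  { (Subalgebra.algebraicClosure S L).toSubring with
    inv_mem' := fun x hx => by
      change IsAlgebraic S x⁻¹
      exact IsAlgebraic.inv hx }

variable {L : Type} [Field L] [Algebra K L]

theorem mem_Cl {S : Subalgebra ℂ K} {z : L} : z ∈ Cl S L ↔ IsAlgebraic S z := Iff.rfl

theorem of_mem {S : Subalgebra ℂ K} {z : K} (h : z ∈ S) : algebraMap K L z ∈ Cl S L := by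
  rw [mem_Cl]
  exact isAlgebraic_algebraMap (R := S) (A := L) ⟨z, h⟩

theorem root_mem {S : Subalgebra ℂ K} {z : L} {n : ℕ} (hn : 0 < n) (h : z ^ n ∈ Cl S L) :
    z ∈ Cl S L := by
  rw [mem_Cl] at *
  exact IsAlgebraic.of_pow hn h

theorem algebraMap_mem_Cl {S : Subalgebra ℂ K} {z : K} : algebraMap K L z ∈ Cl S L ↔ z ∈ Cl S K := by
  rw [mem_Cl, mem_Cl]
  exact isAlgebraic_algebraMap_iff (algebraMap K L).injective

theorem Cl_trans {S S' : Subalgebra ℂ K} (h : ∀ s ∈ S, s ∈ Cl S' K) {z : K} (hz : z ∈ Cl S K) :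
    z ∈ Cl S' K := by
  rw [mem_Cl] at *
  obtain ⟨p, hp, h0⟩ := hz
  let T := Subalgebra.algebraicClosure S' K
  let f : S →+* T := { toFun := fun s => ⟨s.1, h s.1 s.2⟩
                       map_one' := rfl
                       map_mul' := fun _ _ => rfl
                       map_zero' := rfl
                       map_add' := fun _ _ => rfl }
  have hf : Function.Injective f := fun a b hab => by
    have := congrArg Subtype.val hab
    exact Subtype.ext this
  have h1 : IsAlgebraic T z := by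
    refine ⟨p.map f, (Polynomial.map_ne_zero_iff hf).2 hp, ?_⟩
    rw [Polynomial.aeval_def, Polynomial.eval₂_map]
    exact h0
  exact h1.restrictScalars S'

end closure

end Pool.Agent.TH755.C8_SEQ
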