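import Mathlib
import Pool.Agent.TH202.Ex
import Pool.Agent.TH755.C8_SEQ_A

/-!
# The sequence of points
-/

set_option autoImplicit false

namespace Pool.Agent.TH755.C8_SEQ

open Pool.Agent.H436R3.Fol Pool.Agent.TH202 MvPolynomial

variable {K : Type} [Field K] [Algebra ℂ K]

/-- The polynomial algebra generated by the three elements. -/
abbrev S3 (t : Fin 3 → K) : Subalgebra ℂ K := Algebra.adjoin ℂ (Set.range t)

theorem cst_mem {L : Type} [Field L] [Algebra K L] (S : Subalgebra ℂ K) (z : ℂ) :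
    algebraMap K L (algebraMap ℂ K z) ∈ Cl S L := of_mem (S.algebraMap_mem z)

/-- The elements algebraic over `S` as an intermediate field. -/
noncomputable def ClI (S : Subalgebra ℂ K) : IntermediateField ℂ K :=
  (Cl S K).toIntermediateField fun z => cst_mem (L := K) S z

theorem ClI_mem {S : Subalgebra ℂ K} {z : K} : z ∈ ClI S ↔ z ∈ Cl S K := Iff.rfl

theorem a2 (d : Dat K) : d.a ^ 2 ≠ 1 := by
  intro h
  have h1 : IsAlgebraic ℂ d.a := IsAlgebraic.of_pow two_pos (by rw [h]; exact isAlgebraic_one)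
  exact d.ind.transcendental 0 h1

theorem base_alg (d : Dat K) (f : K) : f ∈ Cl (S3 ![d.a, d.b, d.c]) K := by
  obtain ⟨S, hS⟩ : ∃ S, S = S3 ![d.a, d.b, d.c] := ⟨_, rfl⟩
  rw [← hS]
  have hm : ∀ i, ![d.a, d.b, d.c] i ∈ Cl S K := fun i => by
    rw [hS]
    exact of_mem (L := K) (Algebra.subset_adjoin ⟨i, rfl⟩)
  have ha : d.a ∈ Cl S K := hm 0
  have hb : d.b ∈ Cl S K := hm 1
  have hc : d.c ∈ Cl S K := hm 2
  have hle : IntermediateField.adjoin ℂ ({d.a, d.b, d.c} : Set K) ≤ ClI S := by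
    rw [IntermediateField.adjoin_le_iff]
    rintro x (rfl | rfl | rfl)
    · exact ha
    · exact hb
    · exact hc
  have hr : d.r ∈ Cl S K := by
    apply root_mem (n := 3) (by norm_num)
    have h1 : d.b ^ 2 * (1 - d.a ^ 2) ≠ 0 :=
      mul_ne_zero (pow_ne_zero 2 d.b_ne) (sub_ne_zero.2 (Ne.symm (a2 d)))
    have h2 : d.r ^ 3 = d.a ^ 2 * (1 - d.b ^ 2) / (d.b ^ 2 * (1 - d.a ^ 2)) := by
      rw [eq_div_iff h1, d.r3]
    rw [h2]
    exact div_mem (mul_mem (pow_mem ha 2) (sub_mem (one_mem _) (pow_mem hb 2)))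
      (mul_mem (pow_mem hb 2) (sub_mem (one_mem _) (pow_mem ha 2)))
  obtain ⟨g0, h0, g1, h1, g2, h2, rfl⟩ := d.gen f
  exact add_mem (add_mem (hle h0) (mul_mem (hle h1) hr)) (mul_mem (hle h2) (pow_mem hr 2))

theorem isAlg_of {t : Fin 3 → K} (h : ∀ f : K, f ∈ Cl (S3 t) K) : Algebra.IsAlgebraic (S3 t) K :=
  ⟨h⟩

theorem ind_of_alg (d : Dat K) {t : Fin 3 → K} (h : ∀ f : K, f ∈ Cl (S3 t) K) :
    AlgebraicIndependent ℂ t := by
  have h1 : IsTranscendenceBasis ℂ ![d.a, d.b, d.c] :=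
    d.ind.isTranscendenceBasis_iff_isAlgebraic.2 (isAlg_of (base_alg d))
  have := isAlg_of h
  exact (Algebra.IsAlgebraic.isTranscendenceBasis_of_le_trdeg_of_finite ℂ t
    h1.cardinalMk_eq_trdeg.le).1

/-- The constant of the curve. -/
def cA (d : Dat K) : K := (1 - d.a ^ 2) / d.a ^ 2

theorem cA_ne (d : Dat K) : cA d ≠ 0 :=
  div_ne_zero (sub_ne_zero.2 (Ne.symm (a2 d))) (pow_ne_zero 2 d.a_ne)

/-- The sequence of points on `y^2 = A u^3 + 1`. -/
def sq (d : Dat K) : ℕ → K × K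
  | 0 => addf (cA d) (1, d.a⁻¹) (ngp (d.r, d.b⁻¹))
  | 1 => (d.r, d.b⁻¹)
  | 2 => (1, d.a⁻¹)
  | (k + 3) => addf (cA d) (sq d (k + 2)) (sq d (k + 1))

theorem sq_one (d : Dat K) : sq d 1 = (d.r, d.b⁻¹) := by rw [sq]
theorem sq_two (d : Dat K) : sq d 2 = (1, d.a⁻¹) := by rw [sq]
theorem sq_add (d : Dat K) (k : ℕ) :
    sq d (k + 3) = addf (cA d) (sq d (k + 2)) (sq d (k + 1)) := by rw [sq]
theorem sq_zero (d : Dat K) : sq d 0 = addf (cA d) (sq d 2) (ngp (sq d 1)) := by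
  rw [sq_one, sq_two, sq]

theorem on_one (d : Dat K) : On (cA d) (sq d 1) := by
  have h1 := sub_ne_zero.2 (Ne.symm (a2 d))
  have ha := d.a_ne
  have hb := d.b_ne
  rw [sq_one]
  unfold On cA
  have h2 := d.r3
  field_simp
  linear_combination -h2

theorem on_two (d : Dat K) : On (cA d) (sq d 2) := by
  have ha := d.a_ne
  rw [sq_two]
  unfold On cA
  field_simp
  ring

end Pool.Agent.TH755.C8_SEQ
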