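import Mathlib
import Pool.Agent.TH202.Ex
import Pool.Agent.TH755.C8_SEQ_B

/-!
# Genericity of the sequence of points
-/

set_option autoImplicit false

namespace Pool.Agent.TH755.C8_SEQ

open Pool.Agent.H436R3.Fol Pool.Agent.TH202 MvPolynomial

section ext

variable {K L : Type} [Field K] [Field L] [Algebra K L] {A : K} {ξ : L}

theorem xi_ne' (hA : A ≠ 0) (hξ : ξ ^ 3 = algebraMap K L A) : ξ ≠ 0 := by
  rintro rfl
  rw [zero_pow three_ne_zero] at hξ
  exact hA ((map_eq_zero (algebraMap K L)).1 hξ.symm)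

theorem sl_map (p q : K × K) : algebraMap K L (sl p q) / ξ =
    (algebraMap K L p.2 - algebraMap K L q.2) / (ξ * algebraMap K L p.1 - ξ * algebraMap K L q.1) := by
  rw [sl, map_div₀, map_sub, map_sub, div_div]
  congr 1
  ring

theorem on_map (hξ : ξ ^ 3 = algebraMap K L A) {p : K × K} (hp : On A p) :
    (algebraMap K L p.2) ^ 2 = (ξ * algebraMap K L p.1) ^ 3 + 1 := by
  rw [← map_pow, hp, mul_pow, hξ, map_add, map_mul, map_pow, map_one]

theorem fst_map (hA : A ≠ 0) (hξ : ξ ^ 3 = algebraMap K L A) (p q : K × K) :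
    ξ * algebraMap K L (addf A p q).1 =
      ((algebraMap K L p.2 - algebraMap K L q.2) / (ξ * algebraMap K L p.1 - ξ * algebraMap K L q.1)) ^ 2
        - ξ * algebraMap K L p.1 - ξ * algebraMap K L q.1 := by
  have h0 := xi_ne' hA hξ
  rw [← sl_map, addf]
  simp only [map_sub, map_div₀, map_pow, ← hξ]
  field_simp

theorem snd_map (hA : A ≠ 0) (hξ : ξ ^ 3 = algebraMap K L A) (p q : K × K) :
    algebraMap K L (addf A p q).2 =
      -((algebraMap K L p.2 - algebraMap K L q.2) / (ξ * algebraMap K L p.1 - ξ * algebraMap K L q.1)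
        * (ξ * algebraMap K L (addf A p q).1 - ξ * algebraMap K L p.1) + algebraMap K L p.2) := by
  have h0 := xi_ne' hA hξ
  rw [← sl_map]
  have h1 : (addf A p q).2 = -(sl p q * ((addf A p q).1 - p.1) + p.2) := rfl
  rw [h1, map_neg, map_add, map_mul, map_sub]
  field_simp

variable {F : Subfield L}

theorem X_mem (hF : ∀ z : L, ∀ n : ℕ, 0 < n → z ^ n ∈ F → z ∈ F) (hξ : ξ ^ 3 = algebraMap K L A)
    {p : K × K} (hp : On A p) (hy : algebraMap K L p.2 ∈ F) : ξ * algebraMap K L p.1 ∈ F := by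
  apply hF _ 3 (by norm_num)
  have e : (ξ * algebraMap K L p.1) ^ 3 = (algebraMap K L p.2) ^ 2 - 1 := by
    rw [on_map hξ hp]
    ring
  rw [e]
  exact sub_mem (pow_mem hy 2) (one_mem _)

theorem add_mem' (hF : ∀ z : L, ∀ n : ℕ, 0 < n → z ^ n ∈ F → z ∈ F) (hA : A ≠ 0)
    (hξ : ξ ^ 3 = algebraMap K L A) {p q : K × K} (hp : On A p) (hq : On A q)
    (h1 : algebraMap K L p.2 ∈ F) (h2 : algebraMap K L q.2 ∈ F) :
    algebraMap K L (addf A p q).2 ∈ F := by
  have x1 := X_mem hF hξ hp h1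
  have x2 := X_mem hF hξ hq h2
  have hs := div_mem (sub_mem h1 h2) (sub_mem x1 x2)
  rw [snd_map hA hξ, fst_map hA hξ]
  exact neg_mem (add_mem (mul_mem hs (sub_mem (sub_mem (sub_mem (pow_mem hs 2) x1) x2) x1)) h1)

theorem tan_mem (hF : ∀ z : L, ∀ n : ℕ, 0 < n → z ^ n ∈ F → z ∈ F) (hA : A ≠ 0)
    (hξ : ξ ^ 3 = algebraMap K L A) (hL : (2 : L) ≠ 0) {p q : K × K} (hp : On A p) (hq : On A q)
    (h : p.1 ≠ q.1) (h' : (addf A p q).1 = p.1) (hy : p.2 ≠ 0)
    (h1 : algebraMap K L p.2 ∈ F) : algebraMap K L q.2 ∈ F := by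
  have h0 := xi_ne' hA hξ
  have x1 := X_mem hF hξ hp h1
  have hy' : algebraMap K L p.2 ≠ 0 := (map_ne_zero _).2 hy
  obtain ⟨e1, e2, e3⟩ := tangent hA hp hq h h'
  obtain ⟨Λ, hΛ⟩ : ∃ Λ, Λ = algebraMap K L (sl p q) / ξ := ⟨_, rfl⟩
  have hsl : algebraMap K L (sl p q) = Λ * ξ := by rw [hΛ]; field_simp
  have e1' := congrArg (algebraMap K L) e1
  have e2' := congrArg (algebraMap K L) e2
  have e3' := congrArg (algebraMap K L) e3
  simp only [map_mul, map_add, map_sub, map_pow, map_ofNat, hsl, ← hξ] at e1' e2' e3'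
  have hm : Λ ∈ F := by
    have : Λ = 3 * (ξ * algebraMap K L p.1) ^ 2 / (2 * algebraMap K L p.2) := by
      rw [eq_div_iff (mul_ne_zero hL hy')]
      apply mul_left_cancel₀ h0
      linear_combination -e1'
    rw [this]
    exact div_mem (mul_mem (ofNat_mem F 3) (pow_mem x1 2)) (mul_mem (ofNat_mem F 2) h1)
  have x2 : ξ * algebraMap K L q.1 ∈ F := by
    have : ξ * algebraMap K L q.1 = Λ ^ 2 - 2 * (ξ * algebraMap K L p.1) := by
      apply mul_left_cancel₀ (pow_ne_zero 2 h0)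
      linear_combination e2'
    rw [this]
    exact sub_mem (pow_mem hm 2) (mul_mem (ofNat_mem F 2) x1)
  have : algebraMap K L q.2 = algebraMap K L p.2
      - Λ * (ξ * algebraMap K L p.1 - ξ * algebraMap K L q.1) := by
    rw [e3']
    ring
  rw [this]
  exact sub_mem h1 (mul_mem hm (sub_mem x1 x2))

end ext

theorem addf_comm {K : Type} [Field K] {A : K} {p q : K × K} (h : p.1 ≠ q.1) :
    addf A p q = addf A q p := by
  have hd : p.1 - q.1 ≠ 0 := sub_ne_zero.2 h
  have hs : sl p q = sl q p := by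
    rw [sl, sl, div_eq_div_iff hd (sub_ne_zero.2 (Ne.symm h))]
    ring
  have hl' : sl p q * (p.1 - q.1) = p.2 - q.2 := by rw [sl]; field_simp
  unfold addf
  rw [← hs]
  ext
  · simp only
    ring
  · simp only
    linear_combination hl'

section main

variable {K : Type} [Field K] [Algebra ℂ K]

/-- The coordinates. -/
def tr (d : Dat K) (k : ℕ) : Fin 3 → K := ![(sq d (k + 1)).2⁻¹, (sq d k).2⁻¹, d.c]

structure Good (d : Dat K) (k : ℕ) : Prop where
  on0 : On (cA d) (sq d k)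
  on1 : On (cA d) (sq d (k + 1))
  alg : ∀ f : K, f ∈ Cl (S3 (tr d k)) K

theorem sep {L : Type} [Field L] [Algebra K L] {t : Fin 3 → K} (h : AlgebraicIndependent ℂ t)
    {i j : Fin 3} (hij : i ≠ j) {y z : K} (hi : t i = y⁻¹) (hj : t j = z⁻¹) :
    ∃ F : Subfield L, (∀ z : L, ∀ n : ℕ, 0 < n → z ^ n ∈ F → z ∈ F) ∧
      algebraMap K L y ∈ F ∧ algebraMap K L z ∉ F := by
  have ht : Transcendental (Algebra.adjoin ℂ (t '' {i})) (t j) :=
    h.transcendental_adjoin (by simpa using hij.symm)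
  refine ⟨Cl (Algebra.adjoin ℂ (t '' {i})) L, fun z n hn => root_mem hn, ?_, ?_⟩
  · have : algebraMap K L (t i) ∈ Cl (Algebra.adjoin ℂ (t '' {i})) L :=
      of_mem (Algebra.subset_adjoin ⟨i, rfl, rfl⟩)
    rw [hi, map_inv₀] at this
    simpa using inv_mem this
  · intro hz
    apply ht
    have h2 : algebraMap K L (t j) ∈ Cl (Algebra.adjoin ℂ (t '' {i})) L := by
      rw [hj, map_inv₀]
      exact inv_mem hz
    exact algebraMap_mem_Cl.1 h2

variable {d : Dat K} {k : ℕ}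

theorem Good.ind (h : Good d k) : AlgebraicIndependent ℂ (tr d k) := ind_of_alg d h.alg

theorem Good.y0 (h : Good d k) : (sq d k).2 ≠ 0 := fun h0 =>
  h.ind.ne_zero 1 (by simp [tr, h0])

theorem Good.y1 (h : Good d k) : (sq d (k + 1)).2 ≠ 0 := fun h0 =>
  h.ind.ne_zero 0 (by simp [tr, h0])

theorem Good.ne (h : Good d k) : (sq d (k + 1)).1 ≠ (sq d k).1 := by
  intro he
  obtain ⟨F, hF, h1, h2⟩ := sep (L := K) h.ind (i := 0) (j := 1) (by decide)
    (y := (sq d (k + 1)).2) (z := (sq d k).2) rfl rfl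
  apply h2
  apply hF _ 2 two_pos
  have e : (sq d k).2 ^ 2 = (sq d (k + 1)).2 ^ 2 := by
    rw [h.on0, h.on1, he]
  rw [← map_pow, e, map_pow]
  exact pow_mem h1 2

theorem ex_xi (d : Dat K) : ∃ ξ : AlgebraicClosure K, ξ ^ 3 = algebraMap K _ (cA d) :=
  IsAlgClosed.exists_pow_nat_eq _ (by norm_num)

theorem two_ne' : (2 : AlgebraicClosure K) ≠ 0 := by
  have : CharZero K := charZero_of_injective_algebraMap (algebraMap ℂ K).injective
  have : CharZero (AlgebraicClosure K) :=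
    charZero_of_injective_algebraMap (algebraMap K (AlgebraicClosure K)).injective
  exact two_ne_zero

end main

end Pool.Agent.TH755.C8_SEQ
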