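import Mathlib
import Pool.Agent.TH202.Ex
import Pool.Agent.TH755.C8_SEQ_C

/-!
# Genericity of the sequence of points: induction
-/

set_option autoImplicit false

namespace Pool.Agent.TH755.C8_SEQ

open Pool.Agent.H436R3.Fol Pool.Agent.TH202 MvPolynomial

variable {K : Type} [Field K] [Algebra ℂ K]

theorem good_one (d : Dat K) : Good d 1 := by
  refine ⟨on_one d, on_two d, ?_⟩
  have : tr d 1 = ![d.a, d.b, d.c] := by
    unfold tr
    rw [sq_two, sq_one]
    simp
  rw [this]
  exact base_alg d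

theorem Good.ne2 {d : Dat K} {k : ℕ} (h : Good d (k + 1)) :
    (sq d (k + 3)).1 ≠ (sq d (k + 2)).1 := by
  intro he
  obtain ⟨ξ, hξ⟩ := ex_xi d
  obtain ⟨F, hF, h1, h2⟩ := sep (L := AlgebraicClosure K) h.ind (i := 0) (j := 1) (by decide)
    (y := (sq d (k + 2)).2) (z := (sq d (k + 1)).2) rfl rfl
  apply h2
  refine tan_mem hF (cA_ne d) hξ two_ne' h.on1 h.on0 h.ne ?_ h.y1 h1
  rw [← sq_add]
  exact he

theorem Good.back {d : Dat K} {k : ℕ} (h : Good d (k + 1)) :
    sq d (k + 1) = addf (cA d) (sq d (k + 3)) (ngp (sq d (k + 2))) := by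
  have h1 := h.ne2
  have h2 : sq d (k + 3) = addf (cA d) (sq d (k + 1)) (sq d (k + 2)) := by
    rw [sq_add]
    exact addf_comm h.ne
  rw [h2] at h1 ⊢
  exact (inv h.ne.symm h1).symm

theorem Good.step {d : Dat K} {k : ℕ} (h : Good d (k + 1)) : Good d (k + 2) := by
  have hon : On (cA d) (sq d (k + 3)) := by
    rw [sq_add]
    exact On.add (cA_ne d) h.on1 h.on0 h.ne
  refine ⟨h.on1, hon, ?_⟩
  obtain ⟨ξ, hξ⟩ := ex_xi d
  obtain ⟨S, hS⟩ : ∃ S, S = S3 (tr d (k + 2)) := ⟨_, rfl⟩
  have hm : ∀ i, tr d (k + 2) i ∈ Cl S K := fun i => by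
    rw [hS]
    exact of_mem (L := K) (Algebra.subset_adjoin ⟨i, rfl⟩)
  have h3 : (sq d (k + 3)).2 ∈ Cl S K := by
    have := inv_mem (hm 0)
    simpa [tr] using this
  have h2 : (sq d (k + 2)).2 ∈ Cl S K := by
    have := inv_mem (hm 1)
    simpa [tr] using this
  have hc : d.c ∈ Cl S K := hm 2
  have h1 : (sq d (k + 1)).2 ∈ Cl S K := by
    have h3' := (algebraMap_mem_Cl (L := AlgebraicClosure K)).2 h3
    have h2' := (algebraMap_mem_Cl (L := AlgebraicClosure K)).2 h2
    rw [← algebraMap_mem_Cl (L := AlgebraicClosure K), h.back]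
    refine add_mem' (fun z n hn => root_mem hn) (cA_ne d) hξ hon h.on1.neg h3' ?_
    simp only [ngp, map_neg]
    exact neg_mem h2'
  intro f
  rw [← hS]
  refine Cl_trans ?_ (h.alg f)
  intro s hs
  have hle : S3 (tr d (k + 1)) ≤ (ClI S).toSubalgebra := by
    rw [Algebra.adjoin_le_iff]
    rintro _ ⟨i, rfl⟩
    change tr d (k + 1) i ∈ Cl S K
    fin_cases i
    · exact inv_mem h2
    · exact inv_mem h1
    · exact hc
  exact hle hs

theorem good (d : Dat K) (k : ℕ) : Good d (k + 1) := by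
  induction k with
  | zero => exact good_one d
  | succ k ih => exact ih.step

theorem ne_all (d : Dat K) (k : ℕ) : (sq d (k + 2)).1 ≠ (sq d (k + 1)).1 := (good d k).ne

theorem back_all (d : Dat K) (k : ℕ) :
    sq d k = addf (cA d) (sq d (k + 2)) (ngp (sq d (k + 1))) := by
  cases k with
  | zero => exact sq_zero d
  | succ k => exact (good d k).back

theorem on_all (d : Dat K) (k : ℕ) : On (cA d) (sq d k) := by
  cases k with
  | zero =>
    rw [sq_zero]
    exact On.add (cA_ne d) (on_two d) (on_one d).neg (ne_all d 0)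
  | succ k => exact (good d k).on0

theorem y_ne_all (d : Dat K) (k : ℕ) : (sq d k).2 ≠ 0 := by
  cases k with
  | succ k => exact (good d k).y0
  | zero =>
    intro h0
    have g := good d 0
    obtain ⟨ξ, hξ⟩ := ex_xi d
    obtain ⟨F, hF, h1, h2⟩ := sep (L := AlgebraicClosure K) g.ind (i := 1) (j := 0) (by decide)
      (y := (sq d 1).2) (z := (sq d 2).2) rfl rfl
    have hne : (sq d 0).1 ≠ (sq d 1).1 := by
      intro he
      apply g.y0
      have e := on_all d 1
      rw [On, ← he, ← on_all d 0, h0] at e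
      simpa using e
    have e : sq d 2 = addf (cA d) (sq d 0) (sq d 1) := by
      have h3 := inv (A := cA d) (p := sq d 2) (q := ngp (sq d 1)) (ne_all d 0)
        (by rw [← sq_zero]; exact hne)
      rw [← sq_zero, ngp_ngp] at h3
      exact h3.symm
    apply h2
    rw [e]
    refine add_mem' hF (cA_ne d) hξ (on_all d 0) (on_all d 1) ?_ h1
    rw [h0, map_zero]
    exact zero_mem _

end Pool.Agent.TH755.C8_SEQ
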